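import Mathlib
import Pool.Agent.P.MP_f7162b_al.Main

set_option autoImplicit false

namespace Pool.Agent.Results.MP_f7162b_al.Counterexample

/-- A torsion-free Hopfian abelian group with an endomorphism whose cokernel is finite and whose
kernel is non-zero. -/
theorem result :
    ∃ (G : Type) (_ : AddCommGroup G),
      (∀ (n : ℤ) (x : G), n ≠ 0 → n • x = 0 → x = 0) ∧
      (∀ f : G →+ G, Function.Surjective f → Function.Bijective f) ∧
      ∃ φ : G →+ G, Finite (G ⧸ φ.range) ∧ φ.ker ≠ ⊥ :=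
  ⟨Pool.Agent.P.MP_f7162b_al.G, inferInstance, Pool.Agent.P.MP_f7162b_al.torsionFree,
    Pool.Agent.P.MP_f7162b_al.hopfian, Pool.Agent.P.MP_f7162b_al.φ,
    Pool.Agent.P.MP_f7162b_al.coker_finite, Pool.Agent.P.MP_f7162b_al.ker_ne⟩

end Pool.Agent.Results.MP_f7162b_al.Counterexample
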